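import Pool.Agent.W890.SF.All

/-!
# Feige's inequality for two-point variables with values `0` and `1/(1-p)`
-/

set_option autoImplicit false

namespace Pool.Agent.R182.Feige

open Finset

lemma exp_le_pow (n : ℕ) : Real.exp (-1) ≤ (1 - 1 / ((n : ℝ) + 1)) ^ n := by
  rcases Nat.eq_zero_or_pos n with rfl | hn
  · simp
  · have hn0 : (0 : ℝ) < n := by exact_mod_cast hn
    have e1 : (1 - 1 / ((n : ℝ) + 1)) = (1 + 1 / (n : ℝ))⁻¹ := by
      field_simp
      ring
    rw [e1, inv_pow, Real.exp_neg]
    apply inv_anti₀ (by positivity)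
    have h1 : 1 + 1 / (n : ℝ) ≤ Real.exp (1 / (n : ℝ)) := by
      have := Real.add_one_le_exp (1 / (n : ℝ))
      linarith
    calc (1 + 1 / (n : ℝ)) ^ n ≤ (Real.exp (1 / (n : ℝ))) ^ n :=
          pow_le_pow_left₀ (by positivity) h1 n
      _ = Real.exp 1 := by
          rw [← Real.exp_nat_mul]
          congr 1
          field_simp

/-- the sharp bound `(1 - 1/(n+1))^n` -/
theorem twoPoint_sharp (n : ℕ) (p : Fin n → ℝ) (hp : ∀ i, 0 < p i ∧ p i < 1) :
    (1 - 1 / ((n : ℝ) + 1)) ^ n ≤
      ∑ S ∈ (Finset.univ : Finset (Finset (Fin n))).filter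
          (fun S => ∑ i ∈ S, 1 / (1 - p i) < (n : ℝ) + 1),
        (∏ i ∈ S, (1 - p i)) * ∏ i ∈ Sᶜ, p i := by
  classical
  have hN : (0 : ℝ) < (n : ℝ) + 1 := by positivity
  have h0 : (∅ : Finset (Fin n)) ∈ (Finset.univ : Finset (Finset (Fin n))).filter
      (fun S => ∑ i ∈ S, 1 / (1 - p i) < (n : ℝ) + 1) :=
    Finset.mem_filter.2 ⟨Finset.mem_univ _, by rw [Finset.sum_empty]; exact hN⟩
  have hnn : ∀ S ∈ (Finset.univ : Finset (Finset (Fin n))).filter
      (fun S => ∑ i ∈ S, 1 / (1 - p i) < (n : ℝ) + 1),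
      0 ≤ (∏ i ∈ S, (1 - p i)) * ∏ i ∈ Sᶜ, p i := fun S _ =>
    mul_nonneg (Finset.prod_nonneg fun i _ => by linarith [(hp i).2])
      (Finset.prod_nonneg fun i _ => (hp i).1.le)
  rcases Nat.lt_or_ge n 2 with hn | hn
  · interval_cases n
    · refine le_trans ?_ (Finset.single_le_sum (f := fun S : Finset (Fin 0) =>
        (∏ i ∈ S, (1 - p i)) * ∏ i ∈ Sᶜ, p i) hnn h0)
      simp
    · -- n = 1
      have hc1 : (∅ : Finset (Fin 1))ᶜ = Finset.univ := by simp
      have hc2 : (Finset.univ : Finset (Fin 1))ᶜ = ∅ := by simp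
      by_cases hp0 : p 0 < 1 / 2
      · have h1 : (Finset.univ : Finset (Fin 1)) ∈
            (Finset.univ : Finset (Finset (Fin 1))).filter
            (fun S => ∑ i ∈ S, 1 / (1 - p i) < ((1 : ℕ) : ℝ) + 1) := by
          refine Finset.mem_filter.2 ⟨Finset.mem_univ _, ?_⟩
          rw [Fin.sum_univ_one, div_lt_iff₀ (by linarith)]
          push_cast
          linarith
        have h2 : ({∅, Finset.univ} : Finset (Finset (Fin 1))) ⊆
            (Finset.univ : Finset (Finset (Fin 1))).filter
            (fun S => ∑ i ∈ S, 1 / (1 - p i) < ((1 : ℕ) : ℝ) + 1) := by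
          intro S hS
          rw [Finset.mem_insert, Finset.mem_singleton] at hS
          rcases hS with rfl | rfl
          · exact h0
          · exact h1
        refine le_trans ?_ (Finset.sum_le_sum_of_subset_of_nonneg h2 fun S hS _ => hnn S hS)
        have hne : (∅ : Finset (Fin 1)) ≠ Finset.univ := by decide
        rw [Finset.sum_pair hne, hc1, hc2, Fin.prod_univ_one, Fin.prod_univ_one,
          Finset.prod_empty, Finset.prod_empty]
        norm_num
      · refine le_trans ?_ (Finset.single_le_sum (f := fun S : Finset (Fin 1) =>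
          (∏ i ∈ S, (1 - p i)) * ∏ i ∈ Sᶜ, p i) hnn h0)
        push Not at hp0
        rw [hc1, Fin.prod_univ_one, Finset.prod_empty]
        norm_num
        linarith
  · have key := Pool.Agent.W890.SF.t_T2A n hn (1 / ((n : ℝ) + 1)) (by positivity)
      (by
        rw [mul_one_div, div_le_iff₀ hN]
        linarith)
      (fun _ => 0) (fun i => 1 / (1 - p i) / ((n : ℝ) + 1)) (fun i => 1 - p i)
      { a0 := fun i => le_refl _
        b0 := fun i => by
          have := (hp i).2
          have h2 : 0 < 1 - p i := by linarith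
          positivity
        q0 := fun i => by linarith [(hp i).2]
        q1 := fun i => by linarith [(hp i).1]
        mean := fun i => by
          have h2 : (1 - p i) ≠ 0 := by
            have := (hp i).2
            linarith
          field_simp
          ring }
    refine key.trans (le_of_eq ?_)
    unfold Pool.Agent.W890.SF.PP Pool.Agent.W890.SF.PU Pool.Agent.W890.SF.Wt
    rw [Finset.powerset_univ, ← Finset.sum_filter]
    refine Finset.sum_congr ?_ ?_
    · ext S
      simp only [Finset.mem_filter, Finset.mem_univ, true_and, Finset.sum_const_zero, sub_zero]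
      rw [← Finset.sum_div, div_lt_one hN]
    · intro S _
      rw [Finset.compl_eq_univ_sdiff]
      congr 1
      apply Finset.prod_congr rfl
      intro i _
      ring

theorem twoPoint : ∀ n : ℕ, ∀ p : Fin n → ℝ, (∀ i, 0 < p i ∧ p i < 1) →
      Real.exp (-1) ≤
        ∑ S ∈ (Finset.univ : Finset (Finset (Fin n))).filter
            (fun S => ∑ i ∈ S, 1 / (1 - p i) < (n : ℝ) + 1),
          (∏ i ∈ S, (1 - p i)) * ∏ i ∈ Sᶜ, p i :=
  fun n p hp => (exp_le_pow n).trans (twoPoint_sharp n p hp)

end Pool.Agent.R182.Feige
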